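import Pool.Agent.H952R2.Cubic.Final

set_option autoImplicit false

namespace Pool.Agent.Results.MP_4f7796_ag.CurveThroughEveryPoint

open Pool.Agent.H952R2.Cubic

/-- Let `K` be a finite field, `F = 0` a smooth cubic surface in `P^3` over `K`, and `x` a
`K`-point of it. Then there is a rational curve on the surface, defined over `K` (the image of a
nonconstant morphism from `P^1` over `K`), which contains `x`. -/
theorem result (K : Type) [Field K] [Finite K] (F : MvPolynomial (Fin 4) K)
    (hF : SmoothCubicSurface K F) (x : Fin 4 → K) (hx : x ≠ 0)
    (hFx : MvPolynomial.aeval x F = 0) :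
    ∃ C : RatCurve K F, C.Contains x :=
  main F hF x hx hFx

end Pool.Agent.Results.MP_4f7796_ag.CurveThroughEveryPoint
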